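import Mathlib

namespace Pool.Agent.H.MP_53fefd_al

variable {G S : Type} [Group G] [MetricSpace S] [MulAction G S] [IsIsometricSMul G S] {δ : ℝ}

def Geo (S : Type) [MetricSpace S] : Prop :=
  ∀ x y : S, ∃ γ : ℝ → S, γ 0 = x ∧ γ 1 = y ∧ ∀ s ∈ Set.Icc (0 : ℝ) 1, ∀ t ∈ Set.Icc (0 : ℝ) 1, dist (γ s) (γ t) = |s - t| * dist x y

def Four (S : Type) [MetricSpace S] (δ : ℝ) : Prop :=
  ∀ x y z w : S, dist x y + dist z w ≤ max (dist x z + dist y w) (dist x w + dist y z) + 2 * δ

def Acyl (G S : Type) [Group G] [MetricSpace S] [MulAction G S] : Prop :=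
  ∀ ε > 0, ∃ R > 0, ∃ N : ℕ, ∀ x y : S, R ≤ dist x y → {g : G | dist x (g • x) ≤ ε ∧ dist y (g • y) ≤ ε}.encard ≤ N

theorem Four.or (h : Four S δ) (x y z w : S) : dist x y + dist z w ≤ dist x z + dist y w + 2 * δ ∨ dist x y + dist z w ≤ dist x w + dist y z + 2 * δ := by
  have := h x y z w
  rcases le_total (dist x z + dist y w) (dist x w + dist y z) with k | k
  exacts [.inr (by rwa [max_eq_right k] at this), .inl (by rwa [max_eq_left k] at this)]

theorem Geo.pt (h : Geo S) (x y : S) : ∃ γ : ℝ → S, γ 0 = x ∧ γ (dist x y) = y ∧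
    ∀ s t, 0 ≤ s → s ≤ t → t ≤ dist x y → dist (γ s) (γ t) = t - s := by
  obtain ⟨γ, a, b, c⟩ := h x y
  rcases (dist_nonneg (x := x) (y := y)).eq_or_lt with e | e
  · exact ⟨fun _ => x, rfl, dist_eq_zero.1 e.symm, fun s t _ _ _ => by rw [dist_self]; linarith⟩
  refine ⟨fun t => γ (t / dist x y), by simpa, by simpa [e.ne'], fun s t i j k => ?_⟩
  rw [c _ ⟨by positivity, (div_le_one e).2 (j.trans k)⟩ _ ⟨div_nonneg (i.trans j) e.le, (div_le_one e).2 k⟩, ← sub_div, abs_div, abs_of_pos e,
    div_mul_cancel₀ _ e.ne', abs_sub_comm, abs_of_nonneg (by linarith)]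

theorem unb (h : Four S δ) (h0 : 0 ≤ δ) {g : G} {o : S} (k : dist o (g • o) + (2 * δ + 1) ≤ dist o (g • g • o)) :
    ¬ Bornology.IsBounded (MulAction.orbit G o) := fun b => by
  have a : ∀ n : ℕ, dist o (g ^ n • o) + 1 ≤ dist o (g ^ (n + 1) • o) := fun n => by
    induction n with
    | zero =>
      have := dist_triangle o (g • o) (g • g • o)
      simp at this ⊢
      linarith
    | succ n ih =>
      have := h.or o (g • g • o) (g • o) (g • g • g ^ n • o)
      simp only [dist_smul, pow_succ', mul_smul, dist_comm (g • o) o] at *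
      rcases this with e | e <;> linarith
  have a' : ∀ n : ℕ, (n : ℝ) ≤ dist o (g ^ n • o) := fun n => by
    induction n with
    | zero => simp
    | succ n ih => push_cast; linarith [a n]
  obtain ⟨C, c⟩ := Metric.isBounded_iff.1 b
  obtain ⟨n, e⟩ := exists_nat_gt C
  exact e.not_ge ((a' n).trans (c (MulAction.mem_orbit_self o) (MulAction.mem_orbit o _)))

theorem lox (h : Four S δ) (h0 : 0 ≤ δ) (hg : Geo S) (ha : Acyl G S) {o : S} (hb : ¬ Bornology.IsBounded (MulAction.orbit G o)) :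
    ∃ (g : G) (x : S), dist x (g • x) + (2 * δ + 1) ≤ dist x (g • g • x) := by
  classical
  by_contra! k
  have iv : ∀ (g : G) (x y : S), dist (g⁻¹ • x) y = dist x (g • y) := fun g x y => by rw [← dist_smul g, smul_inv_smul]
  have u : ∀ (g g' : G) (x : S) (M : ℝ), dist x (g • x) ≤ M → dist x (g' • x) ≤ M → dist (g • x) (g' • x) ≤ M + (5 * δ + 1) := fun g g' x M i j => by
    by_contra! c
    have a1 := h.or (g⁻¹ • x) x (g' • x) (g • x)
    have a2 := h.or (g'⁻¹ • x) x (g • x) (g' • x)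
    have a3 := h.or x (g • g' • x) (g • x) (g • g' • g • x)
    have a4 := h.or x (g • g' • g • x) (g • g' • x) (g • g' • g • g' • x)
    have b1 := k g x
    have b2 := k g' x
    have b3 := k (g * g') x
    simp only [iv, dist_smul, mul_smul, dist_comm (g' • x) (g • x), dist_comm (g • x) x, dist_comm (g' • x) x] at *
    rcases a1 with a1 | a1 <;> rcases a2 with a2 | a2 <;> rcases a3 with a3 | a3 <;> rcases a4 with a4 | a4 <;> linarith
  have f : ∀ (H : Finset G) (n : ℕ) (x : S), (∀ g ∈ H, dist x (g • x) ≤ 17 * δ + 6 + n) → ∃ x : S, ∀ g ∈ H, dist x (g • x) ≤ 17 * δ + 6 := fun H n => by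
    induction n with
    | zero => exact fun x i => ⟨x, by simpa using i⟩
    | succ n ih =>
      intro x i
      by_cases c : ∀ g ∈ H, dist x (g • x) ≤ 17 * δ + 6 + n
      · exact ih x c
      push Not at c
      obtain ⟨g0, i0, m⟩ := H.exists_max_image (fun g => dist x (g • x)) (let ⟨g, j, _⟩ := c; ⟨g, j⟩)
      obtain ⟨g1, j1, c⟩ := c
      have := m g1 j1
      have := i g0 i0
      have : (0 : ℝ) ≤ n := n.cast_nonneg
      obtain ⟨γ, p0, p1, p⟩ := hg.pt x (g0 • x)
      have q1 := p 0 (3 * δ + 1) le_rfl (by linarith) (by linarith)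
      have q2 := p (3 * δ + 1) _ (by linarith) (by linarith) le_rfl
      rw [p0] at q1
      rw [p1] at q2
      generalize γ (3 * δ + 1) = y at *
      refine ih y fun g j => ?_
      have := m g j
      have a1 := h.or y (g • x) x (g0 • x)
      have a2 := h.or y (g⁻¹ • x) x (g0 • x)
      have a3 := h.or y (g • y) x (g • x)
      have := u g g0 x _ this le_rfl
      have := u g⁻¹ g0 x _ (by rwa [dist_comm, iv]) le_rfl
      have := dist_triangle4 y x (g • x) (g • y)
      simp only [dist_smul, dist_comm y x, dist_comm y (g⁻¹ • x), dist_comm (g • x) x, dist_comm (g • y) x, iv] at *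
      push_cast at *
      rcases a1 with a1 | a1 <;> rcases a2 with a2 | a2 <;> rcases a3 with a3 | a3 <;> linarith
  have f' : ∀ H : Finset G, ∃ x : S, ∀ g ∈ H, dist x (g • x) ≤ 17 * δ + 6 := fun H => by
    obtain ⟨C, c⟩ := (H.finite_toSet.image fun g => dist o (g • o)).bddAbove
    obtain ⟨n, e⟩ := exists_nat_gt C
    exact f H n o fun g i => by linarith [c ⟨g, i, rfl⟩]
  obtain ⟨R, -, N, r⟩ := ha (17 * δ + 6) (by linarith)
  have : Infinite G := not_finite_iff_infinite.1 fun _ => hb (Set.finite_range _).isBounded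
  obtain ⟨H, e⟩ := Infinite.exists_subset_card_eq G (N + 1)
  have t : ∀ x y : S, (∀ g ∈ H, dist x (g • x) ≤ 17 * δ + 6) → (∀ g ∈ H, dist y (g • y) ≤ 17 * δ + 6) → dist x y < R := fun x y i j => not_le.1 fun l => by
    have := le_trans (Set.encard_le_encard (s := H) fun g m => And.intro (i g m) (j g m)) (r x y l)
    rw [Set.encard_coe_eq_coe_finsetCard, e] at this
    exact absurd (Nat.cast_le.1 this) (by omega)
  obtain ⟨x, hx⟩ := f' H
  refine hb ((Metric.isBounded_closedBall (x := o) (r := 2 * R + 2 * dist o x)).subset ?_)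
  rintro _ ⟨g, rfl⟩
  obtain ⟨z, hz⟩ := f' (H ∪ H.image fun a => g * a * g⁻¹)
  have a1 := t x z hx fun a i => hz a (Finset.mem_union_left _ i)
  have a2 := t x (g⁻¹ • z) hx fun a i => by
    simpa [iv, mul_smul] using hz _ (Finset.mem_union_right _ (Finset.mem_image_of_mem _ i))
  have := dist_triangle4 o x z (g • x)
  have := dist_triangle o (g • x) (g • o)
  simp only [Metric.mem_closedBall, dist_comm x (g⁻¹ • z), iv, dist_smul, dist_comm (g • o) o, dist_comm x o] at *
  linarith

theorem acyl (h : Four S δ) (h0 : 0 ≤ δ) (hg : Geo S) {R : ℝ} {M : ℕ} (h1 : 0 ≤ R) (ha : ∀ (x y : S) (g : Fin (M + 1) → G), R < dist x y →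
    (∀ i, dist x (g i • x) < 16 * δ + 2 ∧ dist y (g i • y) < 16 * δ + 2) → ∃ i j, i ≠ j ∧ g i = g j) : Acyl G S := fun ε e => by
  classical
  have cl : ∀ x y y' a a' : S, dist x a + dist a y = dist x y → dist x a' + dist a' y' = dist x y' → dist x a = dist x a' →
      dist x a + dist y y' ≤ dist x y → dist a a' ≤ 4 * δ := fun x y y' a a' i j k l => by
    have a1 := h.or a a' x y'
    have a2 := h.or a y' x y
    have := dist_triangle x y' y
    simp only [dist_comm a x, dist_comm a' x, dist_comm y' x, dist_comm y' y] at *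
    rcases a1 with a1 | a1 <;> rcases a2 with a2 | a2 <;> linarith
  refine ⟨R + 4 * ε + 1, by linarith, (Finset.Icc ⌊-ε⌋ ⌊ε⌋).card * M, fun x y l => ?_⟩
  obtain ⟨γ, p0, p1, p⟩ := hg.pt x y
  have k : ∀ g : G, dist x (g • x) ≤ ε → dist y (g • y) ≤ ε → |dist x y - dist x (g • y)| ≤ ε ∧ ∀ s, 2 * ε ≤ s → s ≤ dist x y - 2 * ε →
      dist (γ (s - (dist x y - dist x (g • y)))) (g • γ s) ≤ 8 * δ := fun g i j => by
    have b := (abs_dist_sub_le y (g • y) x).trans j
    rw [dist_comm y x, dist_comm _ x] at b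
    refine ⟨b, fun s a c => ?_⟩
    obtain ⟨b1, b2⟩ := abs_le.1 b
    obtain ⟨η, q0, q1, q⟩ := hg.pt x (g • y)
    generalize ht : s - (dist x y - dist x (g • y)) = t
    have e1 := p 0 t le_rfl (by linarith) (by linarith)
    have e2 := p t _ (by linarith) (by linarith) le_rfl
    have e3 := q 0 t le_rfl (by linarith) (by linarith)
    have e4 := q t _ (by linarith) (by linarith) le_rfl
    have e5 := p 0 s le_rfl (by linarith) (by linarith)
    have e6 := p s _ (by linarith) (by linarith) le_rfl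
    rw [p0] at e1 e5
    rw [p1] at e2 e6
    rw [q0] at e3
    rw [q1] at e4
    have c1 := cl x y (g • y) (γ t) (η t) (by linarith) (by linarith) (by linarith) (by linarith)
    have c2 := cl (g • y) x (g • x) (η t) (g • γ s) (by rw [dist_comm (g • y), dist_comm _ x, dist_comm _ x]; linarith)
      (by rw [dist_smul, dist_smul, dist_smul, dist_comm y, dist_comm _ x, dist_comm _ x]; linarith)
      (by rw [dist_smul, dist_comm y, dist_comm (g • y)]; linarith) (by rw [dist_comm (g • y), dist_comm _ x]; linarith)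
    linarith [dist_triangle (γ t) (η t) (g • γ s)]
  by_contra! c
  obtain ⟨T, t1, t2⟩ := Set.exists_subset_encard_eq (Order.add_one_le_of_lt c)
  lift T to Finset G using Set.finite_of_encard_eq_coe (k := _ + 1) t2
  rw [Set.encard_coe_eq_coe_finsetCard] at t2
  obtain ⟨z, -, m⟩ := Finset.exists_lt_card_fiber_of_mul_lt_card_of_maps_to (s := T) (t := Finset.Icc ⌊-ε⌋ ⌊ε⌋) (n := M)
    (f := fun g => ⌊dist x y - dist x (g • y)⌋) (fun g i => by
      obtain ⟨a, b⟩ := abs_le.1 (k g (t1 i).1 (t1 i).2).1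
      exact Finset.mem_Icc.2 ⟨Int.floor_mono a, Int.floor_mono b⟩) (Nat.lt_of_succ_le (Nat.cast_injective (R := ℕ∞) t2).ge)
  obtain ⟨f, f1⟩ := Function.Embedding.exists_of_card_le_finset (α := Fin (M + 1)) (by simpa using Nat.succ_le_of_lt m)
  have f2 := fun i => Finset.mem_filter.1 (f1 ⟨i, rfl⟩)
  have w : ∀ i s, 2 * ε ≤ s → s ≤ dist x y - 2 * ε → dist (γ s) (((f 0)⁻¹ * f i) • γ s) < 16 * δ + 2 := fun i s a b => by
    obtain ⟨a1, a2⟩ := k _ (t1 (f2 i).1).1 (t1 (f2 i).1).2
    obtain ⟨b1, b2⟩ := k _ (t1 (f2 0).1).1 (t1 (f2 0).1).2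
    have a3 := Int.abs_sub_lt_one_of_floor_eq_floor ((f2 i).2.trans (f2 0).2.symm)
    have a2 := a2 s a b
    have b2 := b2 s a b
    rw [← dist_smul (f 0), mul_smul, smul_inv_smul]
    generalize dist x y - dist x (f i • y) = u at *
    generalize dist x y - dist x (f 0 • y) = v at *
    rw [abs_le] at a1 b1
    rw [abs_lt] at a3
    have : dist (γ (s - v)) (γ (s - u)) < 1 := by
      rcases le_total u v with r | r
      · rw [p _ _ (by linarith) (by linarith) (by linarith)]; linarith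
      · rw [dist_comm, p _ _ (by linarith) (by linarith) (by linarith)]; linarith
    linarith [dist_triangle4 (f 0 • γ s) (γ (s - v)) (γ (s - u)) (f i • γ s), dist_comm (f 0 • γ s) (γ (s - v))]
  obtain ⟨i, j, a, b⟩ := ha (γ (2 * ε)) (γ (dist x y - 2 * ε)) (fun i => (f 0)⁻¹ * f i) (by rw [p _ _ (by linarith) (by linarith) (by linarith)]; linarith)
    fun i => ⟨w i _ le_rfl (by linarith), w i _ (by linarith) le_rfl⟩
  exact a (f.injective (mul_left_cancel b))

end Pool.Agent.H.MP_53fefd_al
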