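import Pool.Agent.H.MP_53fefd_al.A

namespace Pool.Agent.H.MP_53fefd_al

open unitInterval

inductive Tm (F : Type)
  | b (g : F)
  | p (x y : Tm F) (t : I)

section

variable {F : Type} [Group F]

def Tm.sm (f : F) : Tm F → Tm F
  | .b g => .b (f * g)
  | .p x y t => .p (x.sm f) (y.sm f) t

instance : MulAction F (Tm F) where
  smul := Tm.sm
  one_smul u := by
    change u.sm 1 = u
    induction u <;> simp [Tm.sm, *]
  mul_smul a b u := by
    change u.sm (a * b) = (u.sm b).sm a
    induction u <;> simp [Tm.sm, mul_assoc, *]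

def Tm.hd : Tm F → F
  | .b g => g
  | .p x _ _ => x.hd

theorem Tm.hd_smul (f : F) (u : Tm F) : (f • u).hd = f * u.hd := by
  change (u.sm f).hd = _
  induction u <;> simp [Tm.sm, Tm.hd, *]

structure Dat (N : Subgroup F) (d : Tm F → Tm F → ℝ) (δ R M : ℕ) (g : F) : Prop where
  a1 : ∀ u, d u u = 0
  a2 : ∀ u v, d u v = d v u
  a3 : ∀ u v w, d u w ≤ d u v + d v w
  a4 : ∀ (f : F) u v, d (f • u) (f • v) = d u v
  a5 : ∀ (f : F) u, f ∈ N → d u (f • u) = 0
  a6 : ∀ x y z w, d x y + d z w ≤ max (d x z + d y w) (d x w + d y z) + 2 * δ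
  a7 : ∀ x y, d (.p x y 0) x = 0 ∧ d (.p x y 1) y = 0
  a8 : ∀ x y s t, d (.p x y s) (.p x y t) = |(s : ℝ) - t| * d x y
  a9 : ∀ x y (g : Fin (M + 1) → F), (R < d x y ∧ ∀ i, d x (g i • x) < 16 * δ + 2 ∧ d y (g i • y) < 16 * δ + 2) → ∃ i j, i ≠ j ∧ (g i)⁻¹ * g j ∈ N
  a0 : d (.b 1) (g • .b 1) + (2 * δ + 1) ≤ d (.b 1) (g • g • .b 1)

def Act (G : Type) [Group G] : Prop := ∃ (S : Type) (_ : MetricSpace S) (_ : MulAction G S), IsIsometricSMul G S ∧ (Geo S ∧ ∃ δ, Four S δ) ∧ Acyl G S ∧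
  ∃ x : S, ¬ Bornology.IsBounded (MulAction.orbit G x)

theorem Dat.act {N : Subgroup F} [N.Normal] {d δ R M g} (h : Dat N d δ R M g) : Act (F ⧸ N) := by
  let _ : PseudoMetricSpace (Tm F) := { dist := d, dist_self := h.a1, dist_comm := h.a2, dist_triangle := h.a3 }
  have : IsIsometricSMul F (Tm F) := ⟨fun f => Isometry.of_dist_eq (h.a4 f)⟩
  let S := SeparationQuotient (Tm F)
  have eq : ∀ {u v : Tm F}, d u v = 0 → (SeparationQuotient.mk u : S) = .mk v := fun e => SeparationQuotient.mk_eq_mk.2 (Metric.inseparable_iff.2 e)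
  let _ : MulAction (F ⧸ N) S := .compHom _ (QuotientGroup.lift N (MulAction.toPermHom F S) fun f i => Equiv.ext fun x => by
    obtain ⟨u, rfl⟩ := SeparationQuotient.surjective_mk x
    exact (eq (h.a5 f u i)).symm)
  have sm : ∀ (f : F) (u : Tm F), (f : F ⧸ N) • (SeparationQuotient.mk u : S) = .mk (f • u) := fun _ _ => rfl
  have : IsIsometricSMul (F ⧸ N) S := ⟨fun f => Isometry.of_dist_eq fun x y => by
    obtain ⟨f, rfl⟩ := QuotientGroup.mk_surjective f
    obtain ⟨u, rfl⟩ := SeparationQuotient.surjective_mk x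
    obtain ⟨v, rfl⟩ := SeparationQuotient.surjective_mk y
    exact h.a4 f u v⟩
  have g1 : Geo S := fun x y => by
    obtain ⟨u, rfl⟩ := SeparationQuotient.surjective_mk x
    obtain ⟨v, rfl⟩ := SeparationQuotient.surjective_mk y
    refine ⟨fun t => .mk (.p u v (Set.projIcc 0 1 zero_le_one t)), eq (by simpa using (h.a7 u v).1), eq (by simpa using (h.a7 u v).2), fun s i t j => ?_⟩
    simp only [Set.projIcc_of_mem _ i, Set.projIcc_of_mem _ j]
    exact h.a8 ..
  have g2 : Four S δ := fun x y z w => by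
    obtain ⟨x, rfl⟩ := SeparationQuotient.surjective_mk x
    obtain ⟨y, rfl⟩ := SeparationQuotient.surjective_mk y
    obtain ⟨z, rfl⟩ := SeparationQuotient.surjective_mk z
    obtain ⟨w, rfl⟩ := SeparationQuotient.surjective_mk w
    exact h.a6 x y z w
  refine ⟨S, inferInstance, inferInstance, this, ⟨g1, δ, g2⟩, acyl g2 δ.cast_nonneg g1 (M := M) R.cast_nonneg fun x y g i j => ?_, .mk (.b 1),
    unb g2 δ.cast_nonneg (g := (g : F ⧸ N)) h.a0⟩
  obtain ⟨x, rfl⟩ := SeparationQuotient.surjective_mk x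
  obtain ⟨y, rfl⟩ := SeparationQuotient.surjective_mk y
  choose f hf using fun i => QuotientGroup.mk_surjective (g i)
  obtain rfl : (fun i => (f i : F ⧸ N)) = g := funext hf
  obtain ⟨a, b, c, e⟩ := h.a9 x y f ⟨i, j⟩
  exact ⟨a, b, c, QuotientGroup.eq.2 e⟩

end

variable {α : Type} [Finite α] [DecidableEq α]

noncomputable def Tm.bd : Tm (FreeGroup α) → ℝ
  | .b g => g.toWord.length
  | .p x y _ => 2 * x.bd + y.bd

theorem Act.dat {N : Subgroup (FreeGroup α)} [N.Normal] (h : Act (FreeGroup α ⧸ N)) :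
    ∃ δ R M K : ℕ, ∃ g d, (∀ u v : Tm (FreeGroup α), d u v ∈ Set.Icc 0 (K * (u.bd + v.bd))) ∧ Dat N d δ R M g := by
  obtain ⟨S, _, _, _, ⟨g1, δ, g2⟩, a, x, b⟩ := h
  obtain ⟨δ', e⟩ := exists_nat_ge δ
  have g2 : Four S δ' := fun x y z w => (g2 x y z w).trans (by linarith)
  obtain ⟨g, o, k⟩ := lox g2 δ'.cast_nonneg g1 a b
  obtain ⟨g, rfl⟩ := QuotientGroup.mk_surjective g
  obtain ⟨R, -, M, r⟩ := a (16 * δ' + 2) (by positivity)
  obtain ⟨R', e'⟩ := exists_nat_ge R
  let _ : MulAction (FreeGroup α) S := .compHom _ (QuotientGroup.mk' N)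
  have sm : ∀ (f : FreeGroup α) (x : S), f • x = (f : FreeGroup α ⧸ N) • x := fun _ _ => rfl
  have : IsIsometricSMul (FreeGroup α) S := ⟨fun f => isometry_smul S (f : FreeGroup α ⧸ N)⟩
  obtain ⟨K, hK⟩ := (Set.finite_range fun x : α × Bool => dist o (FreeGroup.mk [x] • o)).bddAbove
  obtain ⟨K', e''⟩ := exists_nat_ge K
  choose γ γ0 γ1 γ2 using g1
  obtain ⟨Φ, p0, p1⟩ : ∃ Φ : Tm (FreeGroup α) → S, (∀ g, Φ (.b g) = g • o) ∧ ∀ x y t, Φ (.p x y t) = x.hd • γ (x.hd⁻¹ • Φ x) (x.hd⁻¹ • Φ y) t :=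
    ⟨Tm.rec (fun g => g • o) fun x _ t a b => x.hd • γ (x.hd⁻¹ • a) (x.hd⁻¹ • b) t, fun _ => rfl, fun _ _ _ => rfl⟩
  have p2 : ∀ (f : FreeGroup α) u, Φ (f • u) = f • Φ u := fun f u => by
    induction u with
    | b g => exact (p0 _).trans (by rw [p0, mul_smul])
    | p x y t i j => exact (p1 (f • x) (f • y) t).trans (by simp [i, j, p1, Tm.hd_smul, mul_smul])
  have p3 : ∀ x y (s t : I), dist (Φ (.p x y s)) (Φ (.p x y t)) = |(s : ℝ) - t| * dist (Φ x) (Φ y) := fun x y s t => by
    rw [p1, p1, dist_smul, γ2 _ _ _ s.2 _ t.2, dist_smul]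
  have p4 : ∀ x y, Φ (.p x y 0) = Φ x := fun x y => by simp [p1, γ0]
  have p5 : ∀ u : Tm (FreeGroup α), dist o (Φ u) ≤ K' * u.bd := fun u => by
    induction u with
    | b g =>
      rw [p0, Tm.bd]
      nth_rewrite 1 [← FreeGroup.mk_toWord (x := g)]
      induction g.toWord with
      | nil => simp [← FreeGroup.one_eq_mk]
      | cons x L ih =>
        have := dist_triangle o (FreeGroup.mk [x] • o) (FreeGroup.mk [x] • FreeGroup.mk L • o)
        rw [dist_smul, ← mul_smul, FreeGroup.mul_mk] at this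
        have := hK ⟨x, rfl⟩
        simp only [List.length_cons, List.singleton_append] at *
        push_cast
        linarith
    | p x y t i j =>
      have := p3 x y 0 t
      have e : |((0 : I) : ℝ) - t| * dist (Φ x) (Φ y) ≤ dist (Φ x) (Φ y) := mul_le_of_le_one_left dist_nonneg (by simpa [abs_of_nonneg t.2.1] using t.2.2)
      have := dist_triangle o (Φ x) (Φ (.p x y t))
      have := dist_triangle_left (Φ x) (Φ y) o
      rw [p4] at *
      rw [Tm.bd]
      linarith
  refine ⟨δ', R', M, K', g, fun u v => dist (Φ u) (Φ v), fun u v => ⟨dist_nonneg, by linarith [p5 u, p5 v, dist_triangle_left (Φ u) (Φ v) o]⟩,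
    by simp, fun _ _ => dist_comm .., fun _ _ _ => dist_triangle .., by simp [p2], fun f u i => by simp [p2, sm, (QuotientGroup.eq_one_iff f).2 i],
    fun _ _ _ _ => g2 .., fun x y => by simp [p4, p1, γ1], p3, fun x y f ⟨i, j⟩ => ?_, by simpa [p2, p0, sm] using k⟩
  by_contra! c
  have := (Set.encard_le_encard (s := Set.range fun i => (f i : FreeGroup α ⧸ N)) (by
    rintro _ ⟨l, rfl⟩
    exact ⟨by simpa [p2, sm] using (j l).1.le, by simpa [p2, sm] using (j l).2.le⟩)).trans (r (Φ x) (Φ y) (e'.trans i.le))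
  have := (Function.Injective.encard_range fun a b e => by_contra fun l => c a b l (QuotientGroup.eq.1 e)).trans this
  rw [ENat.card_eq_coe_fintype_card, Fintype.card_fin] at this
  exact absurd (Nat.cast_le.1 this) (by omega)

theorem act_borel {Z : Type} [TopologicalSpace Z] (N : Z → Subgroup (FreeGroup α)) [∀ z, (N z).Normal] (h : ∀ w, IsClopen {z | w ∈ N z}) :
    @MeasurableSet Z (borel Z) {z | Act (FreeGroup α ⧸ N z)} := by
  borelize Z
  have : ∀ (δ R M K : ℕ) g, IsClosed {z | ∃ d, (∀ u v : Tm (FreeGroup α), d u v ∈ Set.Icc 0 (K * (u.bd + v.bd))) ∧ Dat (N z) d δ R M g} := fun δ R M K g => by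
    let Y := ∀ u v : Tm (FreeGroup α), Set.Icc 0 (K * (u.bd + v.bd))
    have c : ∀ u v, Continuous fun p : Z × Y => (p.2 u v : ℝ) := fun u v => by fun_prop
    have : IsClosed {p : Z × Y | Dat (N p.1) (fun u v => p.2 u v) δ R M g} := by
      have al : ∀ {ι : Type} {P : ι → Z × Y → Prop}, (∀ i, IsClosed {p | P i p}) → IsClosed {p | ∀ i, P i p} := fun k => by
        rw [Set.ofPred_forall]; exact isClosed_iInter k
      have m : ∀ w, IsClopen {p : Z × Y | w ∈ N p.1} := fun w => (h w).preimage continuous_fst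
      convert (al fun u => isClosed_eq (c u u) (continuous_const (y := 0))).and <| (al fun u => al fun v => isClosed_eq (c u v) (c v u)).and <|
        (al fun u => al fun v => al fun w => isClosed_le (c u w) ((c u v).add (c v w))).and <|
        (al fun f : FreeGroup α => al fun u => al fun v => isClosed_eq (c (f • u) (f • v)) (c u v)).and <|
        (al fun f : FreeGroup α => al fun u => isClosed_imp (m f).2 (isClosed_eq (c u (f • u)) (continuous_const (y := 0)))).and <|
        (al fun x => al fun y => al fun z => al fun w => isClosed_le ((c x y).add (c z w))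
          ((((c x z).add (c y w)).max ((c x w).add (c y z))).add (continuous_const (y := 2 * (δ : ℝ))))).and <|
        (al fun x => al fun y => (isClosed_eq (c (.p x y 0) x) (continuous_const (y := 0))).and (isClosed_eq (c (.p x y 1) y) (continuous_const (y := 0)))).and <|
        (al fun x => al fun y => al fun s : I => al fun t : I => isClosed_eq (c (.p x y s) (.p x y t)) ((continuous_const (y := |(s : ℝ) - t|)).mul (c x y))).and <|
        (al fun x => al fun y => al fun g : Fin (M + 1) → FreeGroup α => isClosed_imp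
          (p := fun p => R < (p.2 x y : ℝ) ∧ ∀ i, (p.2 x (g i • x) : ℝ) < 16 * δ + 2 ∧ (p.2 y (g i • y) : ℝ) < 16 * δ + 2)
          (q := fun p => ∃ i j, i ≠ j ∧ (g i)⁻¹ * g j ∈ N p.1) ?_ ?_).and <|
        isClosed_le ((c (.b 1) (g • .b 1)).add (continuous_const (y := 2 * (δ : ℝ) + 1))) (c (.b 1) (g • g • .b 1)) using 2
      · exact funext fun p => propext ⟨fun k => ⟨k.a1, k.a2, k.a3, k.a4, k.a5, k.a6, k.a7, k.a8, k.a9, k.a0⟩,
          fun ⟨a1, a2, a3, a4, a5, a6, a7, a8, a9, a0⟩ => ⟨a1, a2, a3, a4, a5, a6, a7, a8, a9, a0⟩⟩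
      · refine (isOpen_lt continuous_const (c x y)).and ?_
        rw [Set.ofPred_forall]
        exact isOpen_iInter_of_finite fun i => (isOpen_lt (c _ _) continuous_const).and (isOpen_lt (c _ _) continuous_const)
      · simp only [Set.ofPred_exists]
        exact isClosed_iUnion_of_finite fun i => isClosed_iUnion_of_finite fun j => isClosed_const.and (m _).1
    convert isClosedMap_fst_of_compactSpace _ this using 1
    ext z
    exact ⟨fun ⟨d, a, b⟩ => ⟨(z, fun u v => ⟨d u v, a u v⟩), b, rfl⟩, by rintro ⟨p, a, rfl⟩; exact ⟨_, fun u v => (p.2 u v).2, a⟩⟩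
  convert MeasurableSet.iUnion fun δ => .iUnion fun R => .iUnion fun M => .iUnion fun K => .iUnion fun g => (this δ R M K g).measurableSet using 1
  ext z
  simp only [Set.mem_iUnion]
  exact ⟨Act.dat, fun ⟨_, _, _, _, _, _, _, h⟩ => h.act⟩

end Pool.Agent.H.MP_53fefd_al
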