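import Pool.Agent.H.MP_53fefd_al.B
import Pool.Agent.H.MP_e6550d_al.C

namespace Pool.Agent.H.MP_53fefd_al

open Monoid

variable {G ι : Type} [Group G]

def VC (G : Type) [Group G] : Prop := ∃ C : Subgroup G, IsCyclic C ∧ C.FiniteIndex

theorem vc_iff (N : Subgroup G) [N.Normal] : VC (G ⧸ N) ↔ ∃ (g : G) (T : Finset G), ∀ x, ∃ t, t ∈ T ∧ ∃ m : ℤ, (t * g ^ m)⁻¹ * x ∈ N := by
  classical
  refine ⟨fun ⟨C, a, b⟩ => ?_, fun ⟨g, T, h⟩ => ⟨.zpowers g, inferInstance, ?_⟩⟩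
  · obtain ⟨g, rfl⟩ := (Subgroup.isCyclic_iff_exists_zpowers_eq_top C).1 a
    obtain ⟨g, rfl⟩ := QuotientGroup.mk_surjective g
    refine ⟨g, (Set.finite_range fun c : (G ⧸ N) ⧸ Subgroup.zpowers (g : G ⧸ N) => c.out.out).toFinset, fun x => ?_⟩
    obtain ⟨m, e⟩ := QuotientGroup.eq.1 (QuotientGroup.out_eq' ((x : G ⧸ N) : (G ⧸ N) ⧸ Subgroup.zpowers (g : G ⧸ N)))
    exact ⟨_, (Set.Finite.mem_toFinset _).2 ⟨(x : G ⧸ N), rfl⟩, m, QuotientGroup.eq.1 (by simp [show _ ^ m = _ from e])⟩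
  · have : Finite ((G ⧸ N) ⧸ Subgroup.zpowers (g : G ⧸ N)) := .of_surjective (fun t : T => ((t.1 : G ⧸ N) : (G ⧸ N) ⧸ Subgroup.zpowers (g : G ⧸ N))) fun c => by
      obtain ⟨c, rfl⟩ := QuotientGroup.mk_surjective c
      obtain ⟨x, rfl⟩ := QuotientGroup.mk_surjective c
      obtain ⟨t, i, m, j⟩ := h x
      exact ⟨⟨t, i⟩, QuotientGroup.eq.2 ⟨m, by simp [← QuotientGroup.eq.2 j]⟩⟩
    exact Subgroup.finiteIndex_of_finite_quotient

abbrev Fr (m : ℕ) (H : ι → Subgroup G) : Type := Coprod (FreeGroup (Fin m)) (CoprodI fun i => H i)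

def ep {m : ℕ} (x : Fin m → G) (H : ι → Subgroup G) : Fr m H →* G := Coprod.lift (FreeGroup.lift x) (CoprodI.lift fun i => (H i).subtype)

def Le {m : ℕ} {H : ι → Subgroup G} (s : Fr m H) : Prop := (∃ x, s = .inl (.of x) ∨ s = (Coprod.inl (.of x))⁻¹) ∨ ∃ i h, s = .inr (.of (i := i) h)

def RelHyp (H : ι → Subgroup G) : Prop :=
  ∃ (m : ℕ) (x : Fin m → G) (R : Finset (Fr m H)) (C : ℕ), Function.Surjective (ep x H) ∧ (∀ r ∈ R, ep x H r = 1) ∧
    ∀ W : List (Fr m H), (∀ s ∈ W, Le s) → ep x H W.prod = 1 → ∃ L : List (Fr m H), L.length ≤ C * (W.length + 1) ∧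
      (∀ c ∈ L, ∃ f, ∃ r ∈ R, c = f * r * f⁻¹ ∨ c = f * r⁻¹ * f⁻¹) ∧ L.prod = W.prod

variable {m : ℕ} {H : ι → Subgroup G}

theorem le_ind (K : Subgroup (Fr m H)) (h : ∀ s, Le s → s ∈ K) (s : Fr m H) : s ∈ K := by
  induction s using Coprod.induction_on with
  | inl x =>
    induction x using FreeGroup.induction_on with
    | C1 => simp
    | of x => exact h _ (.inl ⟨x, .inl rfl⟩)
    | inv_of x => exact h _ (.inl ⟨x, .inr (map_inv ..)⟩)
    | mul x y a b => rw [map_mul]; exact mul_mem a b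
  | inr x =>
    induction x using CoprodI.induction_on with
    | one => simp
    | of i x => exact h _ (.inr ⟨i, x, rfl⟩)
    | mul x y a b => rw [map_mul]; exact mul_mem a b
  | mul x y a b => exact mul_mem a b

def prods (P : G → Prop) (h : ∀ s, P s → P s⁻¹) : Subgroup G where
  carrier := {s | ∃ W : List G, (∀ s ∈ W, P s) ∧ W.prod = s}
  one_mem' := ⟨[], by simp⟩
  mul_mem' := by
    rintro _ _ ⟨a, i, rfl⟩ ⟨b, j, rfl⟩
    exact ⟨a ++ b, List.forall_mem_append.2 ⟨i, j⟩, List.prod_append⟩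
  inv_mem' := by
    rintro _ ⟨a, i, rfl⟩
    exact ⟨(a.map (·⁻¹)).reverse, by simpa using fun s j => by simpa using h _ (i _ j), (List.prod_inv_reverse a).symm⟩

theorem ex_w (s : Fr m H) : ∃ W : List (Fr m H), (∀ s ∈ W, Le s) ∧ W.prod = s :=
  le_ind (prods Le (by
    rintro _ (⟨x, rfl | rfl⟩ | ⟨i, h, rfl⟩)
    exacts [.inl ⟨x, .inr rfl⟩, .inl ⟨x, .inl (inv_inv _)⟩, .inr ⟨i, h⁻¹, by simp⟩])) (fun s h => ⟨[s], by simpa⟩) s

theorem RelHyp.fg [Group.FG G] (h : RelHyp H) (i : ι) : (H i).FG := by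
  classical
  obtain ⟨m, x, R, C, h1, h2, h3⟩ := h
  let T : Subgroup G → Subgroup (Fr m H) := fun L => .closure {s | (∃ y, s = .inl y) ∨ ∃ j h, s = .inr (.of (i := j) h) ∧ (j = i → h.1 ∈ L)}
  have t1 : ∀ {L L'}, L ≤ L' → T L ≤ T L' := fun l => Subgroup.closure_mono fun s => Or.imp_right fun ⟨j, h, a, b⟩ => ⟨j, h, a, fun c => l (b c)⟩
  have t2 : ∀ s, ∃ L ≤ H i, L.FG ∧ s ∈ T L := le_ind
    { carrier := {s | ∃ L ≤ H i, L.FG ∧ s ∈ T L}
      one_mem' := ⟨⊥, bot_le, ⟨∅, by simp⟩, one_mem _⟩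
      mul_mem' := fun ⟨L, a, b, c⟩ ⟨L', a', b', c'⟩ => ⟨L ⊔ L', sup_le a a', b.sup b', mul_mem (t1 le_sup_left c) (t1 le_sup_right c')⟩
      inv_mem' := fun ⟨L, a, b, c⟩ => ⟨L, a, b, inv_mem c⟩ } (by
    rintro _ (⟨y, rfl | rfl⟩ | ⟨j, h, rfl⟩)
    · exact ⟨⊥, bot_le, ⟨∅, by simp⟩, Subgroup.subset_closure (.inl ⟨_, rfl⟩)⟩
    · exact ⟨⊥, bot_le, ⟨∅, by simp⟩, inv_mem (Subgroup.subset_closure (.inl ⟨_, rfl⟩))⟩
    by_cases e : j = i
    · subst e
      exact ⟨.closure {h.1}, by simp, ⟨{h.1}, by simp⟩, Subgroup.subset_closure (.inr ⟨j, h, rfl, fun _ => Subgroup.subset_closure rfl⟩)⟩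
    · exact ⟨⊥, bot_le, ⟨∅, by simp⟩, Subgroup.subset_closure (.inr ⟨j, h, rfl, fun c => (e c).elim⟩)⟩)
  have t3 : ∀ Z : Finset (Fr m H), ∃ L ≤ H i, L.FG ∧ ∀ s ∈ Z, s ∈ T L := fun Z => by
    induction Z using Finset.induction_on with
    | empty => exact ⟨⊥, bot_le, ⟨∅, by simp⟩, by simp⟩
    | insert s Z _ ih =>
      obtain ⟨L, a, b, c⟩ := t2 s
      obtain ⟨L', a', b', c'⟩ := ih
      exact ⟨L ⊔ L', sup_le a a', b.sup b', (Finset.forall_mem_insert ..).2 ⟨t1 le_sup_left c, fun s j => t1 le_sup_right (c' s j)⟩⟩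
  obtain ⟨A, hA⟩ := Group.fg_def.1 ‹_›
  choose σ hσ using h1
  obtain ⟨L, l1, l2, l3⟩ := t3 (R ∪ A.image σ)
  refine le_antisymm l1 (fun h hh => ?_) ▸ l2
  let f : G → ℤ := fun g => if g ∈ L then 1 else 0
  let θ : Fr m H →* (G → Multiplicative ℤ) ⋊[MP_e6550d_al.sh] G :=
    Coprod.lift (SemidirectProduct.inr.comp (FreeGroup.lift x)) (CoprodI.lift fun j => .mk'
      (fun h => ⟨fun g => .ofAdd (if j = i then f (g * h) - f g else 0), h⟩) fun a b => by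
        ext g
        · change (if j = i then f (g * (a * b)) - f g else 0) = (if j = i then f (g * a) - f g else 0) + (if j = i then f (g * a * b) - f (g * a) else 0)
          split_ifs <;> simp [mul_assoc]
        · rfl)
  have e1 : ∀ s ∈ T L, θ s = .inr (ep x H s) := fun s k => (Subgroup.closure_le (θ.eqLocus (SemidirectProduct.inr.comp (ep x H)))).2 (by
    rintro _ (⟨y, rfl⟩ | ⟨j, h, rfl, c⟩)
    · rfl
    · refine SemidirectProduct.ext (funext fun g => ?_) rfl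
      change (if j = i then f (g * h) - f g else 0) = 0
      split_ifs with e
      · simp [f, mul_mem_cancel_right (c e)]
      · rfl) k
  have e2 : ∀ s, ep x H s = 1 → θ s = 1 := fun s k => by
    obtain ⟨W, a, rfl⟩ := ex_w s
    obtain ⟨L', -, b, c⟩ := h3 W a k
    rw [← c, map_list_prod]
    refine List.prod_eq_one fun y j => ?_
    obtain ⟨c, j', rfl⟩ := List.mem_map.1 j
    obtain ⟨g, r, r1, r2⟩ := b c j'
    have : θ r = 1 := by rw [e1 r (l3 r (Finset.mem_union_left _ r1)), h2 r r1, map_one]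
    rcases r2 with rfl | rfl <;> simp [this]
  obtain ⟨s, s1, s2⟩ : h ∈ (T L).map (ep x H) := (Subgroup.closure_le ((T L).map (ep x H))).2
    (fun a j => ⟨σ a, l3 _ (Finset.mem_union_right _ (Finset.mem_image_of_mem _ j)), hσ a⟩) (hA ▸ Subgroup.mem_top h)
  have := e2 (s⁻¹ * .inr (.of (i := i) ⟨h, hh⟩)) (by rw [map_mul, map_inv, s2]; exact inv_mul_cancel h)
  rw [map_mul, map_inv, inv_mul_eq_one, e1 s s1] at this
  have : (0 : ℤ) = if i = i then f (1 * h) - f 1 else 0 := congrArg (·.left 1) this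
  by_contra c
  simp [f, c] at this

section

variable (m) (H) (N : Subgroup G) [N.Normal]

def qq : Fr m H →* Fr m fun i => (H i).map (QuotientGroup.mk' N) :=
  Coprod.map (.id _) (CoprodI.lift fun i => (CoprodI.of (M := fun i => (H i).map (QuotientGroup.mk' N))).comp ((QuotientGroup.mk' N).subgroupMap (H i)))

variable {m H}

theorem qq_ep (x : Fin m → G) (s) : ep (fun j => (x j : G ⧸ N)) _ (qq m H N s) = ep x H s :=
  DFunLike.congr_fun (show (ep (fun j => (x j : G ⧸ N)) _).comp (qq m H N) = (QuotientGroup.mk' N).comp (ep x H) from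
    Coprod.hom_ext (FreeGroup.ext_hom _ _ fun x => by simp [qq, ep]) (CoprodI.ext_hom _ _ fun i => rfl)) s

theorem qq_le {s} : Le s ↔ ∃ t, Le t ∧ qq m H N t = s := by
  constructor
  · rintro (⟨y, rfl | rfl⟩ | ⟨j, ⟨_, h, i, rfl⟩, rfl⟩)
    exacts [⟨_, .inl ⟨y, .inl rfl⟩, rfl⟩, ⟨_, .inl ⟨y, .inr rfl⟩, map_inv ..⟩, ⟨_, .inr ⟨j, ⟨h, i⟩, rfl⟩, rfl⟩]
  · rintro ⟨_, ⟨y, rfl | rfl⟩ | ⟨j, h, rfl⟩, rfl⟩
    exacts [.inl ⟨y, .inl rfl⟩, .inl ⟨y, .inr (map_inv ..)⟩, .inr ⟨j, _, rfl⟩]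

theorem qq_surj : Function.Surjective (qq m H N) := le_ind (qq m H N).range fun _ h => let ⟨t, _, e⟩ := (qq_le N).1 h; ⟨t, e⟩

theorem qq_ker (s) : qq m H N s = 1 ↔ ∃ W : List (Fr m H), (∀ y, y ∈ W → ∃ c i, ∃ h : H i, h.1 ∈ N ∧ y = c * .inr (.of h) * c⁻¹) ∧ W.prod = s := by
  constructor
  · intro e
    let K := prods (fun y : Fr m H => ∃ c i, ∃ h : H i, h.1 ∈ N ∧ y = c * .inr (.of h) * c⁻¹) (by
      rintro _ ⟨c, i, h, a, rfl⟩
      exact ⟨c, i, h⁻¹, inv_mem a, by simp [mul_assoc]⟩)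
    have : K.Normal := ⟨by
      rintro _ ⟨W, a, rfl⟩ g
      refine ⟨W.map (MulAut.conj g), List.forall_mem_map.2 fun y i => ?_, (map_list_prod (MulAut.conj g) W).symm⟩
      obtain ⟨c, i', h, a, rfl⟩ := a y i
      exact ⟨g * c, i', h, a, by simp [mul_assoc]⟩⟩
    have : ∀ i, ∃ φ : (H i).map (QuotientGroup.mk' N) →* Fr m H ⧸ K, φ.comp ((QuotientGroup.mk' N).subgroupMap (H i)) =
        ((QuotientGroup.mk' K).comp Coprod.inr).comp (CoprodI.of (M := fun i => H i)) := fun i =>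
      ⟨((QuotientGroup.mk' N).subgroupMap (H i)).liftOfSurjective (MonoidHom.subgroupMap_surjective _ _)
        ⟨((QuotientGroup.mk' K).comp Coprod.inr).comp (CoprodI.of (M := fun i => H i)), fun h a => (QuotientGroup.eq_one_iff (N := K) (Coprod.inr (.of h))).2 ⟨[_], List.forall_mem_singleton.2
          ⟨1, i, h, (QuotientGroup.eq_one_iff h.1).1 (congrArg Subtype.val a :), by simp⟩, List.prod_singleton⟩⟩, MonoidHom.liftOfRightInverse_comp ..⟩
    choose φ hφ using this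
    let j : (Fr m fun i => (H i).map (QuotientGroup.mk' N)) →* Fr m H ⧸ K := Coprod.lift ((QuotientGroup.mk' K).comp Coprod.inl) (CoprodI.lift φ)
    have : j.comp (qq m H N) = QuotientGroup.mk' K := Coprod.hom_ext rfl (CoprodI.ext_hom _ _ hφ)
    exact (QuotientGroup.eq_one_iff s).1 ((DFunLike.congr_fun this s).symm.trans (by rw [MonoidHom.comp_apply, e, map_one]))
  · rintro ⟨W, a, rfl⟩
    rw [map_list_prod]
    refine List.prod_eq_one fun y j => ?_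
    obtain ⟨y, j', rfl⟩ := List.mem_map.1 j
    obtain ⟨c, i, h, a, rfl⟩ := a y j'
    have : qq m H N (.inr (.of h)) = 1 := (congrArg (fun z => Coprod.inr (CoprodI.of (i := i) z))
      (Subtype.ext ((QuotientGroup.eq_one_iff _).2 a) : (QuotientGroup.mk' N).subgroupMap (H i) h = 1)).trans (by simp)
    simp [this]

theorem rh_iff : RelHyp (fun i => (H i).map (QuotientGroup.mk' N)) ↔ ∃ (m : ℕ) (x : Fin m → G) (R : Finset (Fr m H)) (C : ℕ),
    (∀ g, ∃ s, (ep x H s)⁻¹ * g ∈ N) ∧ (∀ r, r ∈ R → ep x H r ∈ N) ∧ ∀ W : List (Fr m H), (∀ s ∈ W, Le s) → ep x H W.prod ∈ N →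
      ∃ L : List (Fr m H), (L.length ≤ C * (W.length + 1) ∧ ∀ c ∈ L, ∃ f, ∃ r ∈ R, c = f * r * f⁻¹ ∨ c = f * r⁻¹ * f⁻¹) ∧
        qq m H N (L.prod⁻¹ * W.prod) = 1 := by
  classical
  have lf : ∀ {m} {P : Fr m H → Prop} (W : List (Fr m fun i => (H i).map (QuotientGroup.mk' N))), (∀ s ∈ W, ∃ t, P t ∧ qq m H N t = s) →
      ∃ V : List (Fr m H), (∀ s ∈ V, P s) ∧ V.map (qq m H N) = W := fun W h => by
    induction W with
    | nil => exact ⟨[], by simp⟩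
    | cons s W ih =>
      obtain ⟨t, a, rfl⟩ := h s (.head _)
      obtain ⟨V, b, rfl⟩ := ih fun s i => h s (.tail _ i)
      exact ⟨t :: V, List.forall_mem_cons.2 ⟨a, b⟩, rfl⟩
  refine ⟨fun ⟨m, x, R, C, h1, h2, h3⟩ => ?_, fun ⟨m, x, R, C, h1, h2, h3⟩ => ⟨m, fun j => x j, R.image (qq m H N), C, fun g => ?_, ?_, fun W a b => ?_⟩⟩
  · choose y hy using fun j => QuotientGroup.mk_surjective (x j)
    obtain rfl : (fun j => (y j : G ⧸ N)) = x := funext hy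
    choose σ hσ using qq_surj (m := m) (H := H) N
    refine ⟨m, y, R.image σ, C, fun g => ?_, ?_, fun W a b => ?_⟩
    · obtain ⟨s, e⟩ := h1 g
      exact ⟨σ s, QuotientGroup.eq.1 (by rw [← qq_ep, hσ, e])⟩
    · simp only [Finset.mem_image]
      rintro _ ⟨r, i, rfl⟩
      exact (QuotientGroup.eq_one_iff _).1 (by rw [← qq_ep, hσ, h2 r i])
    · obtain ⟨L, l1, l2, l3⟩ := h3 (W.map (qq m H N)) (List.forall_mem_map.2 fun s i => (qq_le N).2 ⟨s, a s i, rfl⟩)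
        (by rw [← map_list_prod, qq_ep]; exact (QuotientGroup.eq_one_iff _).2 b)
      obtain ⟨V, v1, rfl⟩ := lf (P := fun c => ∃ f, ∃ r ∈ R.image σ, c = f * r * f⁻¹ ∨ c = f * r⁻¹ * f⁻¹) L fun c i => by
        obtain ⟨f, r, j, rfl | rfl⟩ := l2 c i
        exacts [⟨_, ⟨σ f, _, Finset.mem_image_of_mem _ j, .inl rfl⟩, by simp [hσ]⟩, ⟨_, ⟨σ f, _, Finset.mem_image_of_mem _ j, .inr rfl⟩, by simp [hσ]⟩]
      exact ⟨V, ⟨by simpa using l1, v1⟩, by rw [map_mul, map_inv, map_list_prod, map_list_prod, l3, inv_mul_cancel]⟩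
  · obtain ⟨g, rfl⟩ := QuotientGroup.mk_surjective g
    obtain ⟨s, e⟩ := h1 g
    exact ⟨_, (qq_ep N x s).trans (QuotientGroup.eq.2 e)⟩
  · simp only [Finset.mem_image]
    rintro _ ⟨r, i, rfl⟩
    exact (qq_ep N x r).trans ((QuotientGroup.eq_one_iff _).2 (h2 r i))
  · obtain ⟨V, v1, rfl⟩ := lf W fun s i => (qq_le N).1 (a s i)
    obtain ⟨L, ⟨l1, l2⟩, l3⟩ := h3 V v1 ((QuotientGroup.eq_one_iff _).1 (by rwa [← map_list_prod, qq_ep] at b))
    refine ⟨L.map (qq m H N), by simpa using l1, List.forall_mem_map.2 fun c i => ?_, ?_⟩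
    · obtain ⟨f, r, j, k⟩ := l2 c i
      exact ⟨qq m H N f, _, Finset.mem_image_of_mem _ j, k.imp (by rintro rfl; simp) (by rintro rfl; simp)⟩
    · rwa [map_mul, map_inv, map_list_prod, map_list_prod, inv_mul_eq_one] at l3

end

instance [Countable G] [Countable ι] : Countable (Fr m H) :=
  have : Countable (CoprodI fun i => H i) := have : Countable (FreeMonoid (Σ i, H i)) := inferInstanceAs (Countable (List _)); Quotient.countable
  have : Countable (FreeMonoid (FreeGroup (Fin m) ⊕ CoprodI fun i => H i)) := inferInstanceAs (Countable (List _))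
  Coprod.mk_surjective.countable

variable {Z : Type} [MeasurableSpace Z] [Countable G] (N : Z → Subgroup G) [∀ z, (N z).Normal] (h : ∀ w, Measurable fun z => w ∈ N z)
include h

theorem vc_meas : Measurable fun z => VC (G ⧸ N z) := by
  simp only [vc_iff]
  fun_prop

theorem rh_meas [Group.FG G] : Measurable fun z => ∃ (k : ℕ) (H : Fin k → Subgroup (G ⧸ N z)), (∀ i, H i ≠ ⊤) ∧ RelHyp H := by
  have : ∀ z, (∃ (k : ℕ) (H : Fin k → Subgroup (G ⧸ N z)), (∀ i, H i ≠ ⊤) ∧ RelHyp H) ↔ ∃ (k : ℕ) (Y : Fin k → Finset G),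
      (∀ i, ¬ ∀ g : G, ∃ y, y ∈ Subgroup.closure (Y i : Set G) ∧ y⁻¹ * g ∈ N z) ∧
        RelHyp fun i => (Subgroup.closure (Y i : Set G)).map (QuotientGroup.mk' (N z)) := fun z => by
    have e : ∀ K : Subgroup G, K.map (QuotientGroup.mk' (N z)) = ⊤ ↔ ∀ g : G, ∃ y, y ∈ K ∧ y⁻¹ * g ∈ N z := fun K => by
      simp [Subgroup.eq_top_iff', QuotientGroup.forall_mk, QuotientGroup.eq]
    refine exists_congr fun k => ⟨fun ⟨H, a, b⟩ => ?_, fun ⟨Y, a, b⟩ => ⟨_, fun i => mt (e _).1 (a i), b⟩⟩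
    have : ∀ i, ∃ Y : Finset G, (Subgroup.closure (Y : Set G)).map (QuotientGroup.mk' (N z)) = H i := fun i => by
      classical
      obtain ⟨Y, e⟩ := b.fg i
      exact ⟨Y.image Quotient.out, by rw [MonoidHom.map_closure, ← e]; congr 1; ext; simp⟩
    choose Y hY using this
    obtain rfl := funext hY
    exact ⟨Y, fun i => mt (e _).2 (a i), b⟩
  simp only [this, rh_iff, qq_ker]
  fun_prop

end Pool.Agent.H.MP_53fefd_al
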